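import Pool.Agent.helper36.NF.Spec

/-! Row nf:NDV (MP_37e5fa_nt) -/

set_option autoImplicit false

open Polynomial Filter

namespace Pool.Agent.NoFormula

theorem NDV_growth (K J Cst : ℕ) : ∀ᶠ m : ℕ in atTop, m ^ K * Cst ≤ 2 ^ (m - J) := by
  have h1 : Tendsto (fun n : ℕ => (n : ℝ) ^ K * (1 / 2 : ℝ) ^ n) atTop (nhds 0) :=
    tendsto_pow_const_mul_const_pow_of_abs_lt_one K (by norm_num [abs_of_pos])
  have hpos : (0 : ℝ) < 1 / ((Cst : ℝ) * 2 ^ J + 1) := by positivity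
  have h2 := h1.eventually (gt_mem_nhds hpos)
  filter_upwards [h2, eventually_ge_atTop J] with m hm hmJ
  have hp : (0 : ℝ) < 2 ^ m := by positivity
  have h3 : (m : ℝ) ^ K * (1 / 2 : ℝ) ^ m * 2 ^ m = (m : ℝ) ^ K := by
    rw [mul_assoc, ← mul_pow]
    norm_num
  have hD : (0 : ℝ) < (Cst : ℝ) * 2 ^ J + 1 := by positivity
  have h4 : (m : ℝ) ^ K * (1 / 2 : ℝ) ^ m * ((Cst : ℝ) * 2 ^ J + 1) < 1 := by
    rw [lt_div_iff₀ hD] at hm
    exact hm
  have h5 : (m : ℝ) ^ K * ((Cst : ℝ) * 2 ^ J + 1) < 2 ^ m := by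
    have h6 := mul_lt_mul_of_pos_right h4 hp
    calc (m : ℝ) ^ K * ((Cst : ℝ) * 2 ^ J + 1)
        = (m : ℝ) ^ K * (1 / 2 : ℝ) ^ m * 2 ^ m * ((Cst : ℝ) * 2 ^ J + 1) := by rw [h3]
      _ = (m : ℝ) ^ K * (1 / 2 : ℝ) ^ m * ((Cst : ℝ) * 2 ^ J + 1) * 2 ^ m := by ring
      _ < 1 * 2 ^ m := h6
      _ = 2 ^ m := one_mul _
  have h7 : m ^ K * (Cst * 2 ^ J + 1) < 2 ^ m := by exact_mod_cast h5
  have h8 : 2 ^ m = 2 ^ (m - J) * 2 ^ J := by
    rw [← pow_add, Nat.sub_add_cancel hmJ]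
  have h9 : m ^ K * Cst * 2 ^ J ≤ 2 ^ (m - J) * 2 ^ J := by
    rw [← h8]
    calc m ^ K * Cst * 2 ^ J ≤ m ^ K * (Cst * 2 ^ J + 1) := by
          rw [mul_add, mul_assoc]
          exact Nat.le_add_right _ _
      _ ≤ 2 ^ m := h7.le
  exact Nat.le_of_mul_le_mul_right h9 (by positivity)

theorem NDV (hEXP : EXP_stmt) (hGRP : GRP_stmt) (hPOL : POL_stmt) : NDV_stmt := by
  intro k f hf
  by_cases h : ∃ᶠ m : ℕ in atTop, |f m| ≤ 2 ^ (2 ^ m) + 1
  · obtain ⟨J, L, h1, h2⟩ := hEXP k f hf h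
    rcases hGRP f J L h1 h2 with h3 | h3
    · exact Or.inl h3
    · right
      obtain ⟨K, d, B, s, hd, hB, hs, hc, hfe⟩ := h3
      obtain ⟨Cst, hP⟩ := hPOL J d hd
      filter_upwards [hB, hs, hc, hfe, NDV_growth K J Cst, eventually_ge_atTop J, eventually_ge_atTop 1]
        with m hBm hsm hcm hfm hgm hJm h1m hdiv
      have hmK : 1 ≤ m ^ K := Nat.one_le_pow _ _ h1m
      have e1 : ((2 : ℤ) ^ (2 ^ (m - J))) ^ (2 ^ J) = 2 ^ (2 ^ m) := by
        rw [← pow_mul, ← pow_add, Nat.sub_add_cancel hJm]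
      have h4 := hP (2 ^ (m ^ K)) (2 ^ (2 ^ (m - J))) ?_ ?_ ?_ (fun c => B c m) hBm hcm (s m) (f m) ?_ hfm ?_
      · rw [e1] at h4
        exact h4
      · calc (2 : ℤ) = 2 ^ 1 := by norm_num
          _ ≤ 2 ^ (m ^ K) := pow_le_pow_right₀ (by norm_num) hmK
      · rw [← pow_mul]
        exact pow_le_pow_right₀ (by norm_num) hgm
      · have : 2 ^ (m - J) ≠ 0 := by positivity
        exact (even_two).pow_of_ne_zero this
      · exact pow_le_pow_right₀ (by norm_num) hsm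
      · rw [e1]
        exact hdiv
  · right
    rw [not_frequently] at h
    filter_upwards [h] with m hm hdiv
    exfalso
    apply hm
    have hpos : (0 : ℤ) < 2 ^ (2 ^ m) + 1 := by positivity
    exact Int.le_of_dvd hpos ((abs_dvd _ _).2 hdiv)

end Pool.Agent.NoFormula
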