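import Pool.Agent.helper37.NF.Spec

set_option autoImplicit false

namespace Pool.Agent.helper37.NF

open Finset Pool.Agent.NK

theorem NUM_rho (x : ℝ) (hx : 47 ≤ x) : 9.38 ≤ rho x := by
  unfold rho
  have h1 : 0 < (3 * x + 1) * (3 * x + 2) * (3 * x + 3) := by positivity
  rw [le_div_iff₀ h1]
  obtain ⟨y, hy⟩ : ∃ y, y = x - 47 := ⟨_, rfl⟩
  have hy0 : 0 ≤ y := by linarith
  have hxy : x = 47 + y := by linarith
  subst hxy
  have h2 : 0 ≤ 2.74 * y ^ 3 + 200 * y ^ 2 + 5000 * y := by positivity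
  nlinarith [h2, pow_nonneg hy0 3, pow_nonneg hy0 2]

theorem NUM_frac (s : ℝ) (hs : 0 ≤ s) :
    (s + 3) * (s + 2) / ((3 * s + 11) * (3 * s + 10)) ≤ 1 / 9 := by
  have h1 : 0 < (3 * s + 11) * (3 * s + 10) := by positivity
  rw [div_le_div_iff₀ h1 (by norm_num)]
  nlinarith

theorem NUM_small (s : ℕ) (h9 : 9 ≤ s) (h : s ≤ 46) :
    28 / (rho ((s + 1 : ℕ) : ℝ) * rho ((s + 2 : ℕ) : ℝ)) +
    4 / rho (s : ℝ) * (((s : ℝ) + 3) * ((s : ℝ) + 2) / ((3 * (s : ℝ) + 11) * (3 * (s : ℝ) + 10))) ≤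
  (1 - 1 / ((s + 3 : ℕ) : ℝ)) ^ (s + 2) := by
  unfold rho
  interval_cases s <;> norm_num

theorem NUM (h : EXP_stmt) : NUM_stmt := by
  intro s hs
  rcases le_or_gt s 46 with h46 | h46
  · exact NUM_small s hs h46
  · have hs47 : (47 : ℝ) ≤ (s : ℝ) := by exact_mod_cast h46
    have r0 := NUM_rho (s : ℝ) hs47
    have r1 := NUM_rho ((s + 1 : ℕ) : ℝ) (by push_cast; linarith)
    have r2 := NUM_rho ((s + 2 : ℕ) : ℝ) (by push_cast; linarith)
    have hf := NUM_frac (s : ℝ) (by linarith)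
    have he := h (s + 3) (by omega)
    rw [show s + 3 - 1 = s + 2 by omega] at he
    have a1 : 28 / (rho ((s + 1 : ℕ) : ℝ) * rho ((s + 2 : ℕ) : ℝ)) ≤ 28 / (9.38 * 9.38) := by
      apply div_le_div_of_nonneg_left (by norm_num) (by norm_num)
      exact mul_le_mul r1 r2 (by norm_num) (by linarith)
    have a2 : 4 / rho (s : ℝ) ≤ 4 / 9.38 := by
      apply div_le_div_of_nonneg_left (by norm_num) (by norm_num) r0
    have a3 : 4 / rho (s : ℝ) *
        (((s : ℝ) + 3) * ((s : ℝ) + 2) / ((3 * (s : ℝ) + 11) * (3 * (s : ℝ) + 10))) ≤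
        4 / 9.38 * (1 / 9) := by
      apply mul_le_mul a2 hf (by positivity) (by norm_num)
    have a4 : (28 : ℝ) / (9.38 * 9.38) + 4 / 9.38 * (1 / 9) ≤ 0.3678 := by norm_num
    linarith

end Pool.Agent.helper37.NF
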